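import Pool.Agent.T9h36.PZ.Conf

/-!
# (V) The average over `v`
-/

open Finset

set_option autoImplicit false

namespace Pool.Agent.T9h36.PZ.A

open Pool.Agent.T9h39.PZ
open Pool.Agent.T9h36.PZ (card_inst)

lemma surj_of_bal {k m : ℕ} {X : Type} [Fintype X] (hm : 1 ≤ m) {σ : X → Fin k} (h : Bal m σ) :
    Function.Surjective σ := by
  intro i
  have h1 := h i
  have h2 : (univ.filter fun x => σ x = i).Nonempty := by
    rw [← Finset.card_pos]; omega
  obtain ⟨x, hx⟩ := h2
  exact ⟨x, (mem_filter.1 hx).2⟩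

lemma sum_of_sums {k : ℕ} {X A : Type} [Fintype X] [AddCommGroup A] {v : X → A} {σ : X → Fin k}
    {a : Fin k → A} (h : Sums v σ a) : ∑ x, v x = ∑ i, a i := by
  rw [← Finset.sum_fiberwise univ σ v]
  exact Finset.sum_congr rfl fun i _ => h i

/-- (V) -/
theorem avg : S_Avg := by
  classical
  intro hFib hConf k m L A B _ _ _ φ c hk hm hL hA hφc hφi
  by_contra hcon
  push Not at hcon
  set a : ℕ := Fintype.card A with ha
  have ha0 : 0 < a := Fintype.card_pos
  set BS : Finset (Fin (k * m) → Fin k) := univ.filter (fun σ => Bal m σ) with hBS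
  have hn : nBal k m = BS.card := by
    unfold nBal
    rw [hBS]
  set CS : (Fin (k * m) → Fin k) → Finset (Fin (k * m) → Fin k) := fun σ =>
    univ.filter (fun σ' : Fin (k * m) → Fin k => Bal m σ' ∧ σ' ≠ σ ∧ Share σ σ') with hCS
  have hfib : ∀ b : B, ∀ σ ∈ BS,
      (univ.filter fun v : Fin (k * m) → A => Sums v σ (fun r => φ r b)).card * a ^ k =
        a ^ (k * m) := by
    intro b σ hσ
    have := hFib k (Fin (k * m)) A σ (surj_of_bal hm (mem_filter.1 hσ).2) (fun r => φ r b)
    rw [Fintype.card_fin] at this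
    refine le_antisymm (le_trans (le_of_eq (congrArg (· * a ^ k) (card_inst _ _ _))) this.le)
      (le_trans this.ge (le_of_eq (congrArg (· * a ^ k) (card_inst _ _ _))))
  have hconf : ∀ b : B, ∀ σ ∈ BS, 2 * (∑ σ' ∈ CS σ,
      (univ.filter fun v : Fin (k * m) → A => Sums v σ (fun r => φ r b) ∧
        Sums v σ' (fun r => φ r b)).card) * a ^ k ≤ a ^ (k * m) := by
    intro b σ hσ
    have := hConf k m L A hk hm hL hA (fun r => φ r b) (hφi b) σ (mem_filter.1 hσ).2
    refine le_trans (le_of_eq (congrArg (fun z => 2 * z * a ^ k)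
      (Finset.sum_congr ?_ fun _ _ => card_inst _ _ _))) this
    rw [hCS]
  -- pointwise
  have hpt : ∀ (v : Fin (k * m) → A) (b : B), ∀ σ ∈ BS,
      (if Sums v σ (fun r => φ r b) then 1 else 0) ≤
        (if (b, σ) ∈ iso φ v then 1 else 0) +
        ∑ σ' ∈ CS σ, (if Sums v σ (fun r => φ r b) ∧ Sums v σ' (fun r => φ r b) then 1 else 0) := by
    intro v b σ hσ
    by_cases h1 : Sums v σ (fun r => φ r b)
    · rw [if_pos h1]
      by_cases h2 : (b, σ) ∈ iso φ v
      · rw [if_pos h2]; exact Nat.le_add_right _ _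
      · rw [if_neg h2, zero_add]
        have h3 : ¬ ∀ σ', Bal m σ' → Sums v σ' (fun i => φ i b) → Share σ σ' → σ' = σ := by
          intro h3
          apply h2
          unfold iso
          rw [mem_filter]
          exact ⟨mem_univ _, (mem_filter.1 hσ).2, h1, h3⟩
        push Not at h3
        obtain ⟨σ', h4, h5, h6, h7⟩ := h3
        have h8 : σ' ∈ CS σ := by
          rw [hCS, mem_filter]
          exact ⟨mem_univ _, h4, h7, h6⟩
        refine le_trans ?_ (Finset.single_le_sum
          (f := fun σ' => if Sums v σ (fun r => φ r b) ∧ Sums v σ' (fun r => φ r b)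
            then 1 else 0) (fun _ _ => Nat.zero_le _) h8)
        rw [if_pos ⟨h1, h5⟩]
    · rw [if_neg h1]; exact Nat.zero_le _
  -- the sums
  have hS1 : (∑ v : Fin (k * m) → A, ∑ b : B, ∑ σ ∈ BS,
      (if Sums v σ (fun r => φ r b) then 1 else 0)) * a ^ k =
        Fintype.card B * nBal k m * a ^ (k * m) := by
    rw [Finset.sum_comm, Finset.sum_mul]
    have : ∀ b : B, (∑ v : Fin (k * m) → A, ∑ σ ∈ BS,
        (if Sums v σ (fun r => φ r b) then 1 else 0)) * a ^ k = nBal k m * a ^ (k * m) := by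
      intro b
      rw [Finset.sum_comm, Finset.sum_mul, hn]
      have e : BS.card * a ^ (k * m) = ∑ _σ ∈ BS, a ^ (k * m) := by
        rw [Finset.sum_const, smul_eq_mul]
      rw [e]
      refine Finset.sum_congr rfl fun σ hσ => ?_
      rw [← hfib b σ hσ, ← Finset.card_filter]
    rw [Finset.sum_congr rfl fun b _ => this b, Finset.sum_const, Finset.card_univ, smul_eq_mul]
    ring
  have hS2 : ∀ v : Fin (k * m) → A, (∑ b : B, ∑ σ ∈ BS,
      (if (b, σ) ∈ iso φ v then 1 else 0)) ≤ (iso φ v).card := by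
    intro v
    rw [← Finset.sum_product' (s := (univ : Finset B)) (t := BS)
      (f := fun b σ => if (b, σ) ∈ iso φ v then 1 else 0), ← Finset.card_filter]
    exact Finset.card_le_card fun p hp => (mem_filter.1 hp).2
  have hS3 : 2 * (∑ v : Fin (k * m) → A, ∑ b : B, ∑ σ ∈ BS, ∑ σ' ∈ CS σ,
      (if Sums v σ (fun r => φ r b) ∧ Sums v σ' (fun r => φ r b) then 1 else 0)) * a ^ k ≤
        Fintype.card B * nBal k m * a ^ (k * m) := by
    rw [Finset.sum_comm, Finset.mul_sum, Finset.sum_mul]
    have : ∀ b : B, 2 * (∑ v : Fin (k * m) → A, ∑ σ ∈ BS, ∑ σ' ∈ CS σ,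
        (if Sums v σ (fun r => φ r b) ∧ Sums v σ' (fun r => φ r b) then 1 else 0)) * a ^ k ≤
          nBal k m * a ^ (k * m) := by
      intro b
      rw [Finset.sum_comm, Finset.mul_sum, Finset.sum_mul, hn]
      have e : BS.card * a ^ (k * m) = ∑ _σ ∈ BS, a ^ (k * m) := by
        rw [Finset.sum_const, smul_eq_mul]
      rw [e]
      refine Finset.sum_le_sum fun σ hσ => ?_
      refine le_trans (le_of_eq ?_) (hconf b σ hσ)
      rw [Finset.sum_comm]
      simp only [Finset.card_filter]
    refine (Finset.sum_le_sum fun b _ => this b).trans (le_of_eq ?_)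
    rw [Finset.sum_const, Finset.card_univ, smul_eq_mul]
    ring
  have hS4 : (∑ v : Fin (k * m) → A, ∑ b : B, ∑ σ ∈ BS,
      (if Sums v σ (fun r => φ r b) then 1 else 0)) ≤
      (∑ v : Fin (k * m) → A, (iso φ v).card) +
        (∑ v : Fin (k * m) → A, ∑ b : B, ∑ σ ∈ BS, ∑ σ' ∈ CS σ,
      (if Sums v σ (fun r => φ r b) ∧ Sums v σ' (fun r => φ r b) then 1 else 0)) := by
    rw [← Finset.sum_add_distrib]
    refine Finset.sum_le_sum fun v _ => ?_
    refine le_trans ?_ (Nat.add_le_add_right (hS2 v) _)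
    rw [← Finset.sum_add_distrib]
    refine Finset.sum_le_sum fun b _ => ?_
    rw [← Finset.sum_add_distrib]
    exact Finset.sum_le_sum fun σ hσ => hpt v b σ hσ
  have hS5 : Fintype.card B * nBal k m * a ^ (k * m) ≤
      2 * (∑ v : Fin (k * m) → A, (iso φ v).card) * a ^ k := by
    have h1 := Nat.mul_le_mul_right (2 * a ^ k) hS4
    nlinarith [h1, hS1, hS3]
  -- only the `v` with sum `c`
  set VC : Finset (Fin (k * m) → A) := univ.filter (fun v => ∑ x, v x = c) with hVC
  have hVCcard : VC.card * a = a ^ (k * m) := by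
    have : Nonempty (Fin (k * m)) := ⟨⟨0, by positivity⟩⟩
    have := hFib 1 (Fin (k * m)) A (fun _ => 0) (fun i => ⟨Classical.arbitrary _, by
      exact (Subsingleton.elim _ _)⟩) (fun _ => c)
    rw [Fintype.card_fin, pow_one] at this
    rw [← this]
    congr 2
    ext v
    rw [hVC, mem_filter, mem_filter]
    simp only [mem_univ, true_and]
    unfold Sums
    constructor
    · intro h i
      rw [Finset.filter_true_of_mem (fun x _ => Subsingleton.elim _ _)]
      exact h
    · intro h
      have := h 0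
      rwa [Finset.filter_true_of_mem (fun x _ => Subsingleton.elim _ _)] at this
  have hVCne : VC.Nonempty := by
    rw [← Finset.card_pos]
    have : 0 < a ^ (k * m) := pow_pos ha0 _
    rw [← hVCcard] at this
    exact Nat.pos_of_mul_pos_right this
  have hS6 : (∑ v : Fin (k * m) → A, (iso φ v).card) = ∑ v ∈ VC, (iso φ v).card := by
    symm
    refine Finset.sum_subset (subset_univ _) fun v _ hv => ?_
    rw [Finset.card_eq_zero, Finset.eq_empty_iff_forall_notMem]
    rintro ⟨b, σ⟩ hp
    unfold iso at hp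
    rw [mem_filter] at hp
    apply hv
    rw [hVC, mem_filter]
    refine ⟨mem_univ _, ?_⟩
    rw [sum_of_sums hp.2.2.1]
    exact hφc b
  have hS7 : ∑ v ∈ VC, 2 * a ^ (k - 1) * (iso φ v).card <
      ∑ v ∈ VC, Fintype.card B * nBal k m :=
    Finset.sum_lt_sum_of_nonempty hVCne fun v _ => hcon v
  rw [← Finset.mul_sum, Finset.sum_const, smul_eq_mul, ← hS6] at hS7
  have hk' : a ^ k = a ^ (k - 1) * a := by
    rw [← pow_succ]; congr 1; omega
  have h9 := Nat.mul_lt_mul_of_pos_right hS7 ha0
  have h10 : VC.card * (Fintype.card B * nBal k m) * a =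
      Fintype.card B * nBal k m * a ^ (k * m) := by
    rw [← hVCcard]; ring
  rw [h10] at h9
  have h11 : 2 * a ^ (k - 1) * (∑ v : Fin (k * m) → A, (iso φ v).card) * a =
      2 * (∑ v : Fin (k * m) → A, (iso φ v).card) * a ^ k := by
    rw [hk']; ring
  rw [h11] at h9
  omega

end Pool.Agent.T9h36.PZ.A
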